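import Pool.Agent.W977.CG.Spec

set_option autoImplicit false

/-!
Project CG: duality of a graded artinian quotient with one-dimensional socle.
-/

namespace Pool.Agent.W326.CG

open W977.CG

variable {k S : Type} [Field k] [CommRing S] [Algebra k S] (𝒜 : ℕ → Submodule k S)
  [GradedAlgebra 𝒜]

theorem key {J : Ideal S} (hJ : J.IsHomogeneous 𝒜)
    (hN : ∃ N, ∀ n, N ≤ n → ∀ x ∈ 𝒜 n, x ∈ J) {s : ℕ} {z : S} (hz : z ∈ 𝒜 s)
    (hsoc : ∀ x, (∀ n, 0 < n → ∀ y ∈ 𝒜 n, y * x ∈ J) → ∃ c : k, x - c • z ∈ J)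
    {n : ℕ} {x : S} (hx : x ∈ 𝒜 n) (hxJ : x ∉ J) :
    ∃ m, n + m = s ∧ ∃ y ∈ 𝒜 m, ∃ c : k, c ≠ 0 ∧ y * x - c • z ∈ J := by
  classical
  obtain ⟨N, hN⟩ := hN
  set P : ℕ → Prop := fun m => ∃ y ∈ 𝒜 m, y * x ∉ J with hP
  have hP0 : P 0 := ⟨1, SetLike.GradedOne.one_mem, by rwa [one_mul]⟩
  have hPb : ∀ m, P m → m ≤ N := by
    rintro m ⟨y, hy, hyx⟩
    by_contra h
    push Not at h
    exact hyx (hN (m + n) (by omega) _ (SetLike.GradedMul.mul_mem hy hx))
  have hm : P (Nat.findGreatest P N) := Nat.findGreatest_spec (Nat.zero_le N) hP0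
  have hmax : ∀ m', Nat.findGreatest P N < m' → ¬ P m' := by
    intro m' h1 h2
    have := Nat.le_findGreatest (hPb m' h2) h2
    omega
  set m := Nat.findGreatest P N with hmdef
  obtain ⟨y, hy, hyx⟩ := hm
  obtain ⟨c, hc⟩ := hsoc (y * x) (by
    intro l hl y' hy'
    by_contra h
    apply hmax (l + m) (by omega)
    refine ⟨y' * y, SetLike.GradedMul.mul_mem hy' hy, ?_⟩
    rwa [mul_assoc])
  have hc0 : c ≠ 0 := by
    rintro rfl
    rw [zero_smul, sub_zero] at hc
    exact hyx hc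
  refine ⟨m, ?_, y, hy, c, hc0, hc⟩
  by_contra hne
  apply hyx
  have hyxm : y * x ∈ 𝒜 (m + n) := SetLike.GradedMul.mul_mem hy hx
  have h1 := hJ (m + n) hc
  have h2 : ((DirectSum.decompose 𝒜 (y * x - c • z) (m + n) : 𝒜 (m + n)) : S) = y * x := by
    rw [DirectSum.decompose_sub, DirectSum.sub_apply]
    rw [AddSubgroupClass.coe_sub]
    rw [DirectSum.decompose_of_mem_same 𝒜 hyxm,
      DirectSum.decompose_of_mem_ne 𝒜 ((𝒜 s).smul_mem c hz) (by omega), sub_zero]
  rwa [h2] at h1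

theorem T_Dual : PartDual := by
  intro k S _ _ _ 𝒜 _ _ J hJ h0 hN s z hz hzJ hsoc hsoc2
  classical
  set q : S →ₗ[k] S ⧸ J := (Ideal.Quotient.mkₐ k J).toLinearMap with hq
  have hqe : ∀ x : S, q x = Ideal.Quotient.mk J x := fun x => rfl
  have hq0 : ∀ x : S, q x = 0 ↔ x ∈ J := fun x => by
    rw [hqe]
    exact Ideal.Quotient.eq_zero_iff_mem
  have h1J : (1 : S) ∉ J := by
    intro h
    exact hzJ (by simpa using J.mul_mem_left z h)
  have hle : ∀ n, n ≤ s → hf 𝒜 J n ≤ hf 𝒜 J (s - n) := by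
    intro n hn
    have hqz : q z ≠ 0 := fun h => hzJ ((hq0 z).1 h)
    obtain ⟨lam, hlam⟩ : ∃ lam : Module.Dual k (S ⧸ J), lam (q z) ≠ 0 := by
      by_contra h
      push Not at h
      exact hqz ((Module.forall_dual_apply_eq_zero_iff k (q z)).1 h)
    let B : ((𝒜 n).map q) →ₗ[k] Module.Dual k ((𝒜 (s - n)).map q) :=
      ((LinearMap.mul k (S ⧸ J)).compr₂ lam).domRestrict₁₂ ((𝒜 n).map q) ((𝒜 (s - n)).map q)
    have hBapp : ∀ a b, B a b = lam ((a : S ⧸ J) * (b : S ⧸ J)) := fun a b => rfl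
    have hB : Function.Injective B := by
      rw [injective_iff_map_eq_zero]
      rintro ⟨a, ha⟩ hBa
      obtain ⟨x, hx, rfl⟩ := ha
      by_contra hne
      have hxJ : x ∉ J := by
        intro h
        apply hne
        apply Subtype.ext
        exact (hq0 x).2 h
      obtain ⟨m, hm, y, hy, c, hc, hyx⟩ := key 𝒜 hJ hN hz hsoc hx hxJ
      have hms : m = s - n := by omega
      subst hms
      have h2 := LinearMap.congr_fun hBa ⟨q y, Submodule.mem_map_of_mem hy⟩
      rw [hBapp] at h2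
      simp only [LinearMap.zero_apply] at h2
      have h3 : q x * q y = c • q z := by
        have h4 := (hq0 _).2 hyx
        rw [map_sub, map_smul, sub_eq_zero] at h4
        rw [← h4, hqe, hqe, hqe, map_mul, mul_comm]
      rw [h3, map_smul, smul_eq_mul] at h2
      rcases mul_eq_zero.1 h2 with h | h
      · exact hc h
      · exact hlam h
    have h5 := LinearMap.finrank_le_finrank_of_injective hB
    rw [Subspace.dual_finrank_eq] at h5
    exact h5
  refine ⟨?_, ?_, ?_⟩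
  · have h1 : (𝒜 0).map q = Submodule.span k {q 1} := by
      apply le_antisymm
      · rintro _ ⟨x, hx, rfl⟩
        obtain ⟨c, rfl⟩ := h0 x hx
        rw [Algebra.algebraMap_eq_smul_one, map_smul]
        exact Submodule.smul_mem _ _ (Submodule.mem_span_singleton_self _)
      · rw [Submodule.span_singleton_le_iff_mem]
        exact Submodule.mem_map_of_mem SetLike.GradedOne.one_mem
    change Module.finrank k ((𝒜 0).map q) = 1
    rw [h1]
    exact finrank_span_singleton fun h => h1J ((hq0 1).1 h)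
  · intro n hn
    have h1 : (𝒜 n).map q = ⊥ := by
      rw [eq_bot_iff]
      rintro _ ⟨x, hx, rfl⟩
      rw [Submodule.mem_bot, hq0]
      by_contra hxJ
      obtain ⟨m, hm, -⟩ := key 𝒜 hJ hN hz hsoc hx hxJ
      omega
    change Module.finrank k ((𝒜 n).map q) = 0
    rw [h1]
    exact finrank_bot k _
  · intro n hn
    apply le_antisymm (hle n hn)
    have := hle (s - n) (Nat.sub_le _ _)
    rwa [Nat.sub_sub_self hn] at this

end Pool.Agent.W326.CG
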